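import Pool.Agent.R219.CC.Fin

set_option autoImplicit false

/-!
MP_f126a2_nt (converse of Tunnell's criterion, even squarefree `n`): clusters of even squarefree
congruent numbers in both classes 2 and 6 mod 8.  (helper219)
-/

namespace Pool.Agent.Results.MP_f126a2_nt.Clusters

/-- `n` is a congruent number: the area of a right triangle with rational sides. -/
def IsCongruent (n : ℕ) : Prop :=
  ∃ a b c : ℚ, 0 < a ∧ 0 < b ∧ 0 < c ∧ a ^ 2 + b ^ 2 = c ^ 2 ∧ (n : ℚ) = a * b / 2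

/-- **Clusters of even squarefree congruent numbers.** There is a constant `C` such that for all real
`X ≥ 1`, all `1 ≤ K ≤ X^(1/6)` and each of the classes `r = 2, 6` mod `8` there is `Z` with
`X ≤ Z ≤ X + C K X^(5/6)` such that `[Z, Z + C K⁴ X^(1/3)]` contains at least `K` squarefree
congruent numbers `n ≡ r` mod `8`. -/
theorem result : ∃ C : ℝ, 0 < C ∧ ∀ (X : ℝ) (K r : ℕ), 1 ≤ X → 1 ≤ K → (K : ℝ) ≤ X ^ (1 / 6 : ℝ) →
    (r = 2 ∨ r = 6) →
    ∃ Z : ℝ, X ≤ Z ∧ Z ≤ X + C * K * X ^ (5 / 6 : ℝ) ∧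
      K ≤ {n : ℕ | Z ≤ n ∧ (n : ℝ) ≤ Z + C * (K : ℝ) ^ 4 * X ^ (1 / 3 : ℝ) ∧ n % 8 = r ∧
        Squarefree n ∧ IsCongruent n}.ncard := by
  obtain ⟨C, hC, h⟩ := Pool.Agent.R219.CC.clusters IsCongruent
    (fun u s hs0 hs => Pool.Agent.R219.CC.area hs0 hs)
  exact ⟨C, hC, fun X K r hX hK hKX hr => h X K r hX hK hKX (by tauto)⟩

end Pool.Agent.Results.MP_f126a2_nt.Clusters
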