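import Mathlib
import Pool.Agent.Y859.SI.Fin

set_option autoImplicit false

/-!
# Even almost prime congruent numbers in short intervals and in residue classes to large moduli

Let `2/3 < θ ≤ 17/24`.  There is `R` such that for all large `X`, every modulus
`M ≤ X ^ ((θ - 2/3)/14)` and every even squarefree `k`, the interval `[X, X + X ^ θ]` contains at
least `X ^ (1/12)` even squarefree congruent numbers `n ≡ k` modulo `8 M` of the form
`n = (k, M) m`, where `m` has at most `R` prime factors, the odd ones larger than `X ^ (1 / R)`.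
In particular this holds in both classes `2` and `6` modulo `8`.

The numbers are `n = b (x ^ 2 - Q b) (x ^ 2 + Q b)`, see `Pool/Agent/Y859/SI` (helper859,
helper827, helper999), which treats all classes at once.
-/

namespace Pool.Agent.Results.MP_f126a2_nt.EvenAlmostPrimeIntervals

/-- `n` is the area of a right triangle with rational sides -/
def IsCongruent (n : ℕ) : Prop :=
  ∃ a b c : ℚ, 0 < a ∧ 0 < b ∧ 0 < c ∧ a ^ 2 + b ^ 2 = c ^ 2 ∧ (n : ℚ) = a * b / 2

/-- `m` has at most `R` prime factors (with multiplicity), the odd ones larger than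
`X ^ (1 / R)` -/
def AlmostPrime (R : ℕ) (X : ℝ) (m : ℕ) : Prop :=
  m.primeFactorsList.length ≤ R ∧
    ∀ p : ℕ, p.Prime → p ≠ 2 → p ∣ m → X ^ (1 / (R : ℝ)) < (p : ℝ)

/-- **Even almost prime congruent numbers in short intervals, in all classes to moduli up to a
power.**  Let `2/3 < θ ≤ 17/24`.  There are `R` and `X₀` such that for all real `X ≥ X₀`, all moduli
`1 ≤ M ≤ X ^ ((θ - 2/3)/14)` and all even squarefree `k`, at least `X ^ (1/12)` integers `n` in
`[X, X + X ^ θ]` are even squarefree congruent numbers with `n ≡ k` modulo `8 M` and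
`n = (k, M) m`, where `m` has at most `R` prime factors, the odd ones larger than
`X ^ (1 / R)`. -/
theorem result (θ : ℝ) (hθ : 2 / 3 < θ) (hθ1 : θ ≤ 17 / 24) :
    ∃ R : ℕ, 1 ≤ R ∧ ∃ X₀ : ℝ, ∀ X : ℝ, X₀ ≤ X →
      ∀ M : ℕ, 0 < M → (M : ℝ) ≤ X ^ ((θ - 2 / 3) / 14) →
      ∀ k : ℕ, Squarefree k → Even k →
        X ^ (1 / 12 : ℝ) ≤ ({n : ℕ | X ≤ n ∧ (n : ℝ) ≤ X + X ^ θ ∧ Squarefree n ∧ Even n ∧
          n ≡ k [MOD 8 * M] ∧ IsCongruent n ∧
          ∃ m, n = Nat.gcd k M * m ∧ AlmostPrime R X m}.ncard : ℝ) := by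
  obtain ⟨R, hR, X₀, h⟩ := Pool.Agent.Y859.SI.main θ hθ hθ1
  refine ⟨R, hR, X₀, ?_⟩
  intro X hX M hM0 hMX k hk hke
  refine (h X hX M hM0 hMX k hk).trans ?_
  have hfin : {n : ℕ | X ≤ n ∧ (n : ℝ) ≤ X + X ^ θ ∧ Squarefree n ∧ Even n ∧
      n ≡ k [MOD 8 * M] ∧ IsCongruent n ∧
      ∃ m, n = Nat.gcd k M * m ∧ AlmostPrime R X m}.Finite := by
    apply (Set.finite_Iic ⌊X + X ^ θ⌋₊).subset
    intro n hn
    exact Nat.le_floor hn.2.1
  refine Nat.cast_le.2 (Set.ncard_le_ncard ?_ hfin)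
  rintro n ⟨h1, h2, h3, h4, h5, h6⟩
  refine ⟨h1, h2, h3, ?_, h4, h5, h6⟩
  have h7 : n ≡ k [MOD 2] := h4.of_dvd ⟨4 * M, by ring⟩
  rw [Nat.even_iff] at hke ⊢
  have h8 : n % 2 = k % 2 := h7
  omega

end Pool.Agent.Results.MP_f126a2_nt.EvenAlmostPrimeIntervals
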